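import Pool.Agent.PSV.StmtsS
import Pool.Agent.Helper96_MTD.Psa
import Pool.Agent.Helper97_MTD.T1a
import Pool.Agent.Helper97_MTD.Moa
import Pool.Agent.Helper46_MTD.Pma

/-!
# Squad PSV, row PSE

Relations persist under the product of the Zariski closures of the monodromy groups of separated
translates, with the explicit distance of TUE.  Edit of Helper96_MTD/Psa.lean.
-/

set_option autoImplicit false
set_option linter.unusedSectionVars false

namespace Pool.Agent.PSV.H72

open Matrix MvPolynomial Pool.Agent.MT100 Pool.Agent.Helper78_MT Pool.Agent.MT100G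
  Pool.Agent.MT100A Pool.Agent.MT100D Pool.Agent.MT100D.H96 Pool.Agent.PSV

theorem pse (h : TueStmt) : PseStmt := by
  intro d _ _ q B R Y hB bb hbb0 hbb D hDD ι _ _ κ hsep e he
  have hM : MoaDStmt := MT100D.H97.moa
  have h1 : T1aDStmt := MT100D.H97.t1a MT100D.H97.moa
  have hP : PmaDStmt := MT100D.H46.pma
  have hD : ∀ (i : ι), ∀ g ∈ monY q B Y Set.univ,
      ∃ t ∈ tupY q B Y κ, t.1 i = g ∧ t.2 = 0 ∧ ∀ j, κ j < κ i → t.1 j = 1 :=
    h d q B R Y hB bb hbb0 hbb D hDD ι κ hsep
  have hD1 : 1 ≤ D := by
    have hpos := hB.pos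
    have : (0 : ℝ) < D := by linarith
    exact_mod_cast this
  have hκ : Function.Injective κ := by
    intro i j hij
    by_contra hne
    rcases hsep.2 i j hne with h | h
    · omega
    · omega
  obtain ⟨hMu, hM1, hMm, hMi⟩ := hM d q B R Y hB Set.univ
  obtain ⟨hT0, hT1, hTm, hTi⟩ := h1 d q B R Y hB ι κ
  obtain ⟨R0, hR0⟩ := hP d q B R Y hB ι κ e he
  refine ⟨R0, fun Φ hΦ => ?_⟩
  have key : ∀ n : ℕ, ∀ s : Finset ι, s.card = n → (∀ i ∈ s, ∀ i', κ i < κ i' → i' ∈ s) →
      ∀ w : ℝ, R0 < w → ∀ g : ι → Matrix d d ℂ,
        (∀ i, g i ∈ zclosure ℂ ℂ (monY q B Y Set.univ)) → (∀ i, i ∉ s → g i = 1) →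
        MvPolynomial.eval (vrD e (w : ℂ) (Complex.log w)
          fun i => Y ((w : ℂ) - κ i) * g i) Φ = 0 := by
    intro n
    induction n with
    | zero =>
      intro s hs hup w hw g hg hg1
      have hs0 : s = ∅ := Finset.card_eq_zero.mp hs
      have hgg : g = fun _ => 1 := by
        funext i
        exact hg1 i (by simp [hs0])
      subst hgg
      have := hR0 Φ hΦ _ hT1 w hw
      simpa using this
    | succ n ih =>
      intro s hs hup w hw g hg hg1
      have hne : s.Nonempty := by
        rw [← Finset.card_pos]; omega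
      obtain ⟨j, hj, hmin⟩ := Finset.exists_min_image s κ hne
      have hcard : (s.erase j).card = n := by
        rw [Finset.card_erase_of_mem hj, hs]; rfl
      have hup' : ∀ i ∈ s.erase j, ∀ i', κ i < κ i' → i' ∈ s.erase j := by
        intro i hi i' hii'
        rw [Finset.mem_erase] at hi ⊢
        refine ⟨?_, hup i hi.2 i' hii'⟩
        rintro rfl
        exact absurd (hmin i hi.2) (not_le.mpr hii')
      have hlow : ∀ i, i ∉ s → κ i < κ j := by
        intro i hi
        rcases lt_trichotomy (κ i) (κ j) with h | h | h
        · exact h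
        · exact absurd (hκ h ▸ hj) hi
        · exact absurd (hup j hj i h) hi
      -- the polynomial in the entries of the matrix at `j`
      let Z : ι → Matrix d d ℂ := fun i => Y ((w : ℂ) - κ i) * g i
      have hpoly : ∀ T ∈ zclosure ℂ ℂ (monY q B Y Set.univ),
          pev T (bind₁ (sbJ e j (w : ℂ) (Complex.log w) (Y ((w : ℂ) - κ j)) Z) Φ) = 0 := by
        intro T hT
        refine hT.2 _ ?_
        intro m hm
        obtain ⟨t, ht, htj, ht0, ht1⟩ := hD j m hm
        rw [pev_sbJ, ← htj]
        -- the matrices for the induction hypothesis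
        let g' : ι → Matrix d d ℂ := fun i => if i = j then 1 else (t.1 i)⁻¹ * g i
        have hg' : ∀ i, g' i ∈ zclosure ℂ ℂ (monY q B Y Set.univ) := by
          intro i
          by_cases hij : i = j
          · simp only [g', hij, if_true]; exact one_Zc hM hB
          · simp only [g', hij, if_false]
            exact mo_mul_Zc hM hB (hMi _ (hT0 t ht i)) (hg i)
        have hg'1 : ∀ i, i ∉ s.erase j → g' i = 1 := by
          intro i hi
          by_cases hij : i = j
          · simp [g', hij]
          · have his : i ∉ s := fun h => hi (Finset.mem_erase.mpr ⟨hij, h⟩)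
            simp [g', hij, ht1 i (hlow i his), hg1 i his]
        have hih : ∀ w : ℝ, R0 < w → MvPolynomial.eval (vrD e (w : ℂ) (Complex.log w)
            fun i => Y ((w : ℂ) - κ i)) (bind₁ (sbG g') Φ) = 0 := by
          intro w' hw'
          rw [eval_sbG]
          exact ih (s.erase j) hcard hup' w' hw' g' hg' hg'1
        have hev : ∀ᶠ w : ℝ in Filter.atTop, MvPolynomial.eval (vrD e (w : ℂ) (Complex.log w)
            fun i => Y ((w : ℂ) - κ i)) (bind₁ (sbG g') Φ) = 0 :=
          (Filter.eventually_gt_atTop R0).mono hih
        have hres := hR0 _ hev t ht w hw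
        rw [eval_sbG, ht0] at hres
        have hY : Function.update Z j (Y ((w : ℂ) - κ j) * t.1 j) =
            fun i => Y ((w : ℂ) - κ i) * t.1 i * g' i := by
          funext i
          by_cases hij : i = j
          · subst hij
            simp [g']
          · rw [Function.update_of_ne hij]
            have hut : IsUnit (t.1 i).det := hMu _ (hT0 t ht i)
            simp only [g', hij, if_false, Z]
            rw [Matrix.mul_assoc, ← Matrix.mul_assoc (t.1 i), Matrix.mul_nonsing_inv _ hut,
              Matrix.one_mul]
        rw [hY]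
        simpa using hres
      have hfin := hpoly (g j) (hg j)
      rw [pev_sbJ] at hfin
      have hY : Function.update Z j (Y ((w : ℂ) - κ j) * g j) = Z := by
        funext i
        by_cases hij : i = j
        · subst hij
          simp [Z]
        · rw [Function.update_of_ne hij]
      rw [hY] at hfin
      exact hfin
  intro w hw g hg
  exact key _ Finset.univ rfl (fun _ _ _ _ => Finset.mem_univ _) w hw g hg
    (fun i hi => absurd (Finset.mem_univ i) hi)

end Pool.Agent.PSV.H72
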